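import Pool.Agent.Helper17.IA.StV

/-!
Project IA (MP_953b28_co), module FRM.
-/

set_option autoImplicit false

namespace Pool.Agent.Helper33.IA

open Finset Pool.Agent.Helper93.IA Pool.Agent.Helper17.IA

private lemma smX {n N : ℕ} {t : ℝ} (A X : Finset (Fin n × Fin n)) (hX : X.card ≤ N)
    (ht : (N : ℝ) ≤ t) : Sm (A \ (A \ X)) t := by
  have hsub : A \ (A \ X) ⊆ X := by
    intro x hx
    rw [mem_sdiff, mem_sdiff] at hx
    by_contra h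
    exact hx.2 ⟨hx.1, h⟩
  have hcard : (A \ (A \ X)).card ≤ N := (card_le_card hsub).trans hX
  constructor
  · intro a
    have h1 : d1 (A \ (A \ X)) a ≤ N := (card_filter_le _ _).trans hcard
    have h2 : (d1 (A \ (A \ X)) a : ℝ) ≤ (N : ℝ) := by exact_mod_cast h1
    exact h2.trans ht
  · intro b
    have h1 : d2 (A \ (A \ X)) b ≤ N := (card_filter_le _ _).trans hcard
    have h2 : (d2 (A \ (A \ X)) b : ℝ) ≤ (N : ℝ) := by exact_mod_cast h1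
    exact h2.trans ht

private lemma insX {n : ℕ} (A X : Finset (Fin n × Fin n)) (F0 U W : Finset (Fin n)) (hU : U ⊆ F0)
    (hW : W ⊆ F0) (hX : ∀ x ∈ X, ¬ (x.1 ∈ F0 ∧ x.2 ∈ F0)) : ins (A \ X) U W = ins A U W := by
  unfold ins
  ext x
  rw [mem_filter, mem_filter, mem_sdiff]
  constructor
  · rintro ⟨⟨h1, _⟩, h3⟩
    exact ⟨h1, h3⟩
  · rintro ⟨h1, h3⟩
    exact ⟨⟨h1, fun h => hX x h ⟨hU h3.1, hW h3.2⟩⟩, h3⟩

theorem hFRM : StFRM := by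
  intro hPKB hPKU n e t A B C F0 ι _ 𝓛 XA XB XC V hbal hV h1 h2 ht
  have hdec : Dec (𝓛.biUnion XA) (𝓛.biUnion XB) (𝓛.biUnion XC) :=
    (hPKU (Fin n) (Fin n) (Fin n)).2.2 ι 𝓛 XA XB XC (fun i hi => (h1 i hi).2.2.2.1) h2
  have hX := (hPKB (Fin n) (Fin n) (Fin n)).2.1 _ _ _ hdec
  have sA : 𝓛.biUnion XA ⊆ A := biUnion_subset.2 fun L hL => (h1 L hL).1
  have sB : 𝓛.biUnion XB ⊆ B := biUnion_subset.2 fun L hL => (h1 L hL).2.1
  have sC : 𝓛.biUnion XC ⊆ C := biUnion_subset.2 fun L hL => (h1 L hL).2.2.1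
  have hc : ∀ L ∈ 𝓛, (XA L).card + (XB L).card + (XC L).card ≤ 36 * e :=
    fun L hL => (h1 L hL).2.2.2.2.2.2.2
  have cA : (𝓛.biUnion XA).card ≤ 𝓛.card * (36 * e) :=
    card_biUnion_le_card_mul _ _ _ fun L hL => by have := hc L hL; omega
  have cB : (𝓛.biUnion XB).card ≤ 𝓛.card * (36 * e) :=
    card_biUnion_le_card_mul _ _ _ fun L hL => by have := hc L hL; omega
  have cC : (𝓛.biUnion XC).card ≤ 𝓛.card * (36 * e) :=
    card_biUnion_le_card_mul _ _ _ fun L hL => by have := hc L hL; omega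
  have eA' : ∀ x ∈ 𝓛.biUnion XA, ¬ (x.1 ∈ F0 ∧ x.2 ∈ F0) := by
    intro x hx
    obtain ⟨L, hL, hx⟩ := mem_biUnion.1 hx
    exact (h1 L hL).2.2.2.2.1 x hx
  have eB' : ∀ x ∈ 𝓛.biUnion XB, ¬ (x.1 ∈ F0 ∧ x.2 ∈ F0) := by
    intro x hx
    obtain ⟨L, hL, hx⟩ := mem_biUnion.1 hx
    exact (h1 L hL).2.2.2.2.2.1 x hx
  have eC' : ∀ x ∈ 𝓛.biUnion XC, ¬ (x.1 ∈ F0 ∧ x.2 ∈ F0) := by
    intro x hx
    obtain ⟨L, hL, hx⟩ := mem_biUnion.1 hx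
    exact (h1 L hL).2.2.2.2.2.2.1 x hx
  exact ⟨(hPKB (Fin n) (Fin n) (Fin n)).2.2 A _ B _ C _ sA sB sC hbal hX,
    smX A _ cA ht, smX B _ cB ht, smX C _ cC ht,
    insX A _ F0 _ _ (hV 0) (hV 1) eA', insX B _ F0 _ _ (hV 1) (hV 2) eB',
    insX C _ F0 _ _ (hV 2) (hV 0) eC'⟩

end Pool.Agent.Helper33.IA
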